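import Pool.Agent.H705.RO.Stm

set_option autoImplicit false

/-! Hoeffding for the sum of independent centred cosines (project RO). -/

namespace Pool.Agent.H25.RO

open MeasureTheory ProbabilityTheory Filter Topology Finset
open Pool.Agent.H705.RO
open scoped NNReal

/-- one wave as a function of the pair of random numbers -/
noncomputable def wv (a β g w : ℕ → ℝ) (t : ℝ) (n : ℕ) (y : ℝ × ℝ) : ℝ :=
  a n * Real.cos ((g n + w n * y.1) * t + 2 * Real.pi * y.2 + β n)

theorem wv_meas (a β g w : ℕ → ℝ) (t : ℝ) (n : ℕ) : Continuous (wv a β g w t n) := by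
  unfold wv
  fun_prop

theorem inner_zero (c b : ℝ) :
    ∫ v in Set.Icc (0 : ℝ) 1, c * Real.cos (b + 2 * Real.pi * v) = 0 := by
  rw [integral_Icc_eq_integral_Ioc, ← intervalIntegral.integral_of_le zero_le_one,
    intervalIntegral.integral_const_mul]
  have h1 : ∫ v in (0 : ℝ)..1, Real.cos (b + 2 * Real.pi * v) = 0 := by
    have h2 := intervalIntegral.integral_comp_add_mul (a := 0) (b := 1) Real.cos
      (show (2 * Real.pi : ℝ) ≠ 0 by positivity) b
    rw [h2, integral_cos, mul_zero, mul_one, add_zero, Real.sin_add_two_pi, sub_self, smul_zero]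
  rw [h1, mul_zero]

theorem mean_zero (a β g w : ℕ → ℝ) (t : ℝ) (n : ℕ) :
    ∫ y, wv a β g w t n y ∂Pool.Agent.H705.RO.sq = 0 := by
  unfold Pool.Agent.H705.RO.sq
  by_cases hi : Integrable (wv a β g w t n)
      (((volume : Measure ℝ).restrict (Set.Icc (0 : ℝ) 1)).prod
        ((volume : Measure ℝ).restrict (Set.Icc (0 : ℝ) 1)))
  · rw [integral_prod _ hi]
    have h1 : ∀ u : ℝ, ∫ v in Set.Icc (0 : ℝ) 1, wv a β g w t n (u, v) = 0 := by
      intro u
      have h3 : ∀ v : ℝ, wv a β g w t n (u, v) =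
          a n * Real.cos ((g n + w n * u) * t + β n + 2 * Real.pi * v) := by
        intro v
        show a n * Real.cos ((g n + w n * u) * t + 2 * Real.pi * v + β n) = _
        congr 2
        ring
      simp only [h3]
      exact inner_zero _ _
    simp only [h1, integral_zero]
  · rw [integral_undef hi]

theorem T_HOE : P_HOE := by
  intro Ω _ P X hX a β g w ha t M M' lam v hlam hv hsum
  have hprob : IsProbabilityMeasure P := hX.prob
  obtain ⟨Z, hZ⟩ : ∃ Z : ℕ → Ω → ℝ, Z = fun n ω => wv a β g w t n (X n ω) := ⟨_, rfl⟩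
  have hZm : ∀ n, Measurable (Z n) := by
    intro n
    rw [hZ]
    exact (wv_meas a β g w t n).measurable.comp (hX.meas n)
  have hind : iIndepFun Z P := by
    rw [hZ]
    exact hX.indep.comp (fun n => wv a β g w t n) fun n => (wv_meas a β g w t n).measurable
  have hmean : ∀ n, ∫ ω, Z n ω ∂P = 0 := by
    intro n
    rw [hZ]
    have h1 := integral_map (μ := P) (hX.meas n).aemeasurable
      (wv_meas a β g w t n).aestronglyMeasurable
    rw [hX.law n, mean_zero] at h1
    exact h1.symm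
  have hbd : ∀ n ω, Z n ω ∈ Set.Icc (-a n) (a n) := by
    intro n ω
    rw [hZ]
    show -a n ≤ a n * Real.cos _ ∧ a n * Real.cos _ ≤ a n
    have h1 := Real.neg_one_le_cos ((g n + w n * (X n ω).1) * t + 2 * Real.pi * (X n ω).2 + β n)
    have h2 := Real.cos_le_one ((g n + w n * (X n ω).1) * t + 2 * Real.pi * (X n ω).2 + β n)
    constructor <;> nlinarith [ha n]
  have hsub : ∀ n, HasSubgaussianMGF (Z n) ((‖a n - -a n‖₊ / 2) ^ 2) P := fun n =>
    hasSubgaussianMGF_of_mem_Icc_of_integral_eq_zero (hZm n).aemeasurable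
      (Eventually.of_forall (hbd n)) (hmean n)
  have hS0 := HasSubgaussianMGF.sum_of_iIndepFun hind (s := Ico M M') fun n _ => hsub n
  have hc : ((∑ n ∈ Ico M M', (‖a n - -a n‖₊ / 2) ^ 2 : ℝ≥0) : ℝ) ≤ v := by
    refine le_trans (le_of_eq ?_) hsum
    rw [NNReal.coe_sum]
    refine Finset.sum_congr rfl fun n _ => ?_
    push_cast
    rw [sub_neg_eq_add, Real.norm_eq_abs, abs_of_nonneg (by linarith [ha n])]
    ring
  obtain ⟨v', hv'⟩ : ∃ v' : ℝ≥0, (v' : ℝ) = v := ⟨⟨v, hv.le⟩, rfl⟩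
  have hS : HasSubgaussianMGF (fun ω => ∑ n ∈ Ico M M', Z n ω) v' P := by
    refine ⟨hS0.integrable_exp_mul, fun s => (hS0.mgf_le s).trans (Real.exp_le_exp.mpr ?_)⟩
    have h1 : ((∑ n ∈ Ico M M', (‖a n - -a n‖₊ / 2) ^ 2 : ℝ≥0) : ℝ) * s ^ 2 ≤ v * s ^ 2 :=
      mul_le_mul_of_nonneg_right hc (sq_nonneg s)
    rw [hv']
    linarith
  have e1 := hS.measure_ge_le hlam.le
  have e2 := hS.neg.measure_ge_le hlam.le
  have hexp : Real.exp (-lam ^ 2 / (2 * (v' : ℝ))) = Real.exp (-(lam ^ 2 / (2 * v))) := by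
    rw [hv', neg_div]
  rw [hexp] at e1 e2
  have hsubset : {ω | lam ≤ |∑ n ∈ Ico M M', wave a β g w (fun n => X n ω) n t|} ⊆
      {ω | lam ≤ ∑ n ∈ Ico M M', Z n ω} ∪
        {ω | lam ≤ (-(fun ω => ∑ n ∈ Ico M M', Z n ω)) ω} := by
    intro ω hω
    have h1 : lam ≤ |∑ n ∈ Ico M M', Z n ω| := by
      rw [hZ]
      exact hω
    rcases le_abs.mp h1 with h2 | h2
    · exact Or.inl h2
    · exact Or.inr h2
  refine (measure_mono hsubset).trans ((measure_union_le _ _).trans ?_)
  rw [two_mul, ENNReal.ofReal_add (Real.exp_pos _).le (Real.exp_pos _).le]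
  refine add_le_add ?_ ?_
  · rw [← ENNReal.ofReal_toReal (measure_ne_top P {ω | lam ≤ ∑ n ∈ Ico M M', Z n ω})]
    exact ENNReal.ofReal_le_ofReal e1
  · rw [← ENNReal.ofReal_toReal
      (measure_ne_top P {ω | lam ≤ (-(fun ω => ∑ n ∈ Ico M M', Z n ω)) ω})]
    exact ENNReal.ofReal_le_ofReal e2

end Pool.Agent.H25.RO
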